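import Pool.Agent.W345.VO.Stm

/-!
Complete reducibility: the assembly (helper919, for helper345).
-/

namespace W919.VO

open Pool.Agent.W345.VO

universe u

section proj

variable {M : Type u} [AddCommGroup M] [Module ℂ M] {A : ℕ → Submodule ℂ M}

/-- the projection onto the `d`-th summand -/
noncomputable def pr (h : DirectSum.IsInternal A) (d : ℕ) : Module.End ℂ M :=
  (A d).subtype ∘ₗ (DirectSum.component ℂ ℕ (fun i => A i) d) ∘ₗ
    (LinearEquiv.ofBijective (DirectSum.coeLinearMap A) h).symm.toLinearMap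

theorem pr_apply (h : DirectSum.IsInternal A) (d : ℕ) (x : M) :
    pr h d x = ((LinearEquiv.ofBijective (DirectSum.coeLinearMap A) h).symm x d : M) := rfl

theorem pr_mem (h : DirectSum.IsInternal A) (d : ℕ) (x : M) : pr h d x ∈ A d := by
  rw [pr_apply]
  exact Subtype.mem _

theorem pr_same (h : DirectSum.IsInternal A) {d : ℕ} {x : M} (hx : x ∈ A d) : pr h d x = x := by
  rw [pr_apply, h.ofBijective_coeLinearMap_of_mem hx]

theorem pr_ne (h : DirectSum.IsInternal A) {i j : ℕ} (hij : i ≠ j) {x : M} (hx : x ∈ A i) :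
    pr h j x = 0 := by
  rw [pr_apply, h.ofBijective_coeLinearMap_of_mem_ne hij hx]
  rfl

theorem mem_of_pr (h : DirectSum.IsInternal A) {N : Submodule ℂ M} {x : M}
    (hx : ∀ d, pr h d x ∈ N) : x ∈ N := by
  classical
  have h1 : DirectSum.coeLinearMap A
      ((LinearEquiv.ofBijective (DirectSum.coeLinearMap A) h).symm x) = x :=
    (LinearEquiv.ofBijective (DirectSum.coeLinearMap A) h).apply_symm_apply x
  rw [DirectSum.coeLinearMap_eq_dfinsuppSum] at h1
  rw [← h1]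
  unfold DFinsupp.sum
  exact Submodule.sum_mem _ fun i _ => hx i

theorem gr_iff (h : DirectSum.IsInternal A) (N : Submodule ℂ M) :
    N = (⨆ d : ℕ, N ⊓ A d) ↔ ∀ (d : ℕ) (x : M), x ∈ N → pr h d x ∈ N := by
  constructor
  · intro hN d x hx
    have h1 : N ≤ N.comap (pr h d) := by
      conv_lhs => rw [hN]
      refine iSup_le fun e => ?_
      intro y hy
      rw [Submodule.mem_comap]
      by_cases hde : e = d
      · subst hde
        rw [pr_same h hy.2]
        exact hy.1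
      · rw [pr_ne h hde hy.2]
        exact N.zero_mem
    exact h1 hx
  · intro hN
    apply le_antisymm
    · intro x hx
      refine mem_of_pr h fun d => ?_
      exact (le_iSup (fun d : ℕ => N ⊓ A d) d) ⟨hN d x hx, pr_mem h d x⟩
    · exact iSup_le fun d => inf_le_left

/-- linear maps which agree on the summands agree -/
theorem ext_hom (h : DirectSum.IsInternal A) {f g : Module.End ℂ M}
    (hfg : ∀ d, ∀ x ∈ A d, f x = g x) : f = g := by
  ext x
  have h1 : x ∈ LinearMap.eqLocus f g := by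
    refine mem_of_pr h fun d => ?_
    exact hfg d _ (pr_mem h d x)
  exact h1

end proj

theorem cr : S_OMG.{u} → S_DIA.{u} → S_CHN.{u} → S_CIR.{u} → S_LAT.{u} → S_CR.{u} := by
  intro hOMG hDIA hCHN hCIR hLAT M _ _ ρ
  classical
  set O : Set (Module.End ℂ M) := {f | (∃ n, f = ρ.h n) ∨ (∃ n, f = ρ.E n) ∨ (∃ n, f = ρ.F n) ∨
    ∃ d, f = pr ρ.internal d} with hO
  have hst : ∀ N : Submodule ℂ M, (∀ f ∈ O, ∀ x ∈ N, f x ∈ N) ↔ (ρ.St N ∧ ρ.Gr N) := by
    intro N
    constructor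
    · intro h
      refine ⟨fun n w hw => ⟨?_, ?_, ?_⟩, ?_⟩
      · exact h _ (Or.inl ⟨n, rfl⟩) w hw
      · exact h _ (Or.inr (Or.inl ⟨n, rfl⟩)) w hw
      · exact h _ (Or.inr (Or.inr (Or.inl ⟨n, rfl⟩))) w hw
      · exact (gr_iff ρ.internal N).2 fun d x hx => h _ (Or.inr (Or.inr (Or.inr ⟨d, rfl⟩))) x hx
    · rintro ⟨h1, h2⟩ f hf x hx
      rcases hf with ⟨n, rfl⟩ | ⟨n, rfl⟩ | ⟨n, rfl⟩ | ⟨d, rfl⟩
      · exact (h1 n x hx).1
      · exact (h1 n x hx).2.1
      · exact (h1 n x hx).2.2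
      · exact (gr_iff ρ.internal N).1 h2 d x hx
  have hirr : ∀ N : Submodule ℂ M, ((∀ f ∈ O, ∀ x ∈ N, f x ∈ N) ∧ N ≠ ⊥ ∧
      ∀ N' : Submodule ℂ M, (∀ f ∈ O, ∀ x ∈ N', f x ∈ N') → N' ≤ N → N' = ⊥ ∨ N' = N) ↔
      ρ.Irr N := by
    intro N
    constructor
    · rintro ⟨h1, h2, h3⟩
      obtain ⟨h4, h5⟩ := (hst N).1 h1
      exact ⟨h4, h5, h2, fun N' h6 h7 h8 => h3 N' ((hst N').2 ⟨h6, h7⟩) h8⟩
    · rintro ⟨h4, h5, h2, h3⟩
      refine ⟨(hst N).2 ⟨h4, h5⟩, h2, fun N' h6 h8 => ?_⟩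
      obtain ⟨h7, h9⟩ := (hst N').1 h6
      exact h3 N' h7 h9 h8
  -- the sum of all irreducible ones
  set S : Submodule ℂ M := ⨆ N ∈ {N : Submodule ℂ M | (∀ f ∈ O, ∀ x ∈ N, f x ∈ N) ∧ N ≠ ⊥ ∧
      ∀ N' : Submodule ℂ M, (∀ f ∈ O, ∀ x ∈ N', f x ∈ N') → N' ≤ N → N' = ⊥ ∨ N' = N}, N with hS
  have hleS : ∀ N : Submodule ℂ M, ρ.Irr N → N ≤ S := by
    intro N hN
    exact le_iSup₂_of_le N ((hirr N).2 hN) le_rfl
  have hSh : ∀ (n : ℤ) (w : M), w ∈ S → ρ.h n w ∈ S := by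
    intro n w hw
    have h1 : S ≤ S.comap (ρ.h n) := by
      refine iSup₂_le fun N hN => ?_
      intro y hy
      rw [Submodule.mem_comap]
      have h2 : ρ.Irr N := (hirr N).1 hN
      exact hleS N h2 (h2.1 n y hy).1
    exact h1 hw
  -- homogeneous components of vacuum vectors
  have hcomm : ∀ (n : ℤ) (d e : ℕ), (e : ℤ) = d - n →
      ρ.h n ∘ₗ pr ρ.internal d = pr ρ.internal e ∘ₗ ρ.h n := by
    intro n d e hde
    apply ext_hom ρ.internal
    intro c x hx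
    show ρ.h n (pr ρ.internal d x) = pr ρ.internal e (ρ.h n x)
    by_cases hcd : c = d
    · subst hcd
      rw [pr_same ρ.internal hx, pr_same ρ.internal ((ρ.h_deg n c x hx).1 e hde)]
    · rw [pr_ne ρ.internal hcd hx, map_zero]
      by_cases hneg : (c : ℤ) - n < 0
      · rw [(ρ.h_deg n c x hx).2 hneg, map_zero]
      · have h1 := (ρ.h_deg n c x hx).1 (((c : ℤ) - n).toNat) (by omega)
        rw [pr_ne ρ.internal (by omega) h1]
  have hOm : ∀ w : M, ρ.Om w → ∀ d, ρ.Om (pr ρ.internal d w) := by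
    intro w hw d n hn
    by_cases hneg : (d : ℤ) - n < 0
    · exact (ρ.h_deg n d _ (pr_mem ρ.internal d w)).2 hneg
    · have h1 := LinearMap.congr_fun (hcomm n d (((d : ℤ) - n).toNat) (by omega)) w
      have h2 : ρ.h n (pr ρ.internal d w) = pr ρ.internal (((d : ℤ) - n).toNat) (ρ.h n w) := h1
      rw [h2, hw n hn, map_zero]
  have hvac : ∀ w : M, ρ.Om w → w ∈ S := by
    intro w hw
    refine mem_of_pr ρ.internal fun d => ?_
    have h1 := hDIA M ρ d (pr ρ.internal d w) (pr_mem ρ.internal d w) (hOm w hw d)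
    have h2 : Submodule.span ℂ {y : M | y ∈ ρ.deg d ∧ ρ.Om y ∧
        ∃ k : ℤ, ρ.h 0 y = (k : ℂ) • y} ≤ S := by
      rw [Submodule.span_le]
      rintro y ⟨hy1, hy2, k, hy3⟩
      by_cases hy0 : y = 0
      · rw [hy0]
        exact S.zero_mem
      · obtain ⟨z, hz, hz0⟩ := hCHN M ρ k d y hy1 hy2 hy3 hy0
        have h3 := hCIR M ρ k z hz
        apply hleS _ h3
        unfold Rep.PS
        rw [Submodule.mem_sInf]
        intro p hp
        exact hp.1 ⟨0, hz0⟩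
    exact h2 h1
  have htop : S = ⊤ := by
    rw [eq_top_iff, ← hOMG M ρ]
    unfold Rep.PS
    exact sInf_le ⟨fun w hw => hvac w hw, fun l w hw => hSh _ w hw⟩
  obtain ⟨ι, N, h1, h2, h3⟩ := hLAT M O (fun w => by
    rw [← hS, htop]
    exact Submodule.mem_top)
  exact ⟨ι, N, fun i => (hirr (N i)).1 (h1 i), h2, h3⟩

end W919.VO
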